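import Pool.Agent.Helper47.RFn.CoreN

/-!
# Project RFn (`MP_c98eff_gt`), packet RFn-C6 (helper47): determinant and inverse of a metric
-/

set_option autoImplicit false

namespace Pool.Agent.Helper47.RFn

open Finset

namespace C6aux

variable {n : ℕ}

theorem sm_prod (hC1 : Goal_C1) {ι : Type} (s : Finset ι) (f : ι → EE n → ℝ)
    (h : ∀ a, Sm (f a)) : Sm (fun x => ∏ a ∈ s, f a x) := by
  classical
  obtain ⟨hc, _, _, hmul, -⟩ := hC1 n
  induction s using Finset.induction_on with
  | empty => simpa using hc 1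
  | insert a s ha ih =>
    have e : (fun x => ∏ b ∈ insert a s, f b x) = fun x => f a x * ∏ b ∈ s, f b x := by
      funext x
      rw [Finset.prod_insert ha]
    rw [e]
    exact hmul _ _ (h a) ih

/-- the determinant of a smooth field of matrices is smooth -/
theorem sm_det (hC1 : Goal_C1) (M : MF n) (hM : ∀ i j, Sm (fun x => M x i j)) :
    Sm (fun x => (M x).det) := by
  obtain ⟨hc, _, _, hmul, -, hsum, -⟩ := hC1 n
  have e : (fun x => (M x).det) = fun x => ∑ σ : Equiv.Perm (Fin (n + 1)),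
      ((Equiv.Perm.sign σ : ℤ) : ℝ) * ∏ i, M x (σ i) i := by
    funext x
    rw [Matrix.det_apply']
  rw [e]
  refine hsum _ _ _ fun σ _ => ?_
  exact hmul _ _ (hc _) (sm_prod hC1 _ _ fun i => hM (σ i) i)

/-- the adjugate of a smooth field of matrices is smooth -/
theorem sm_adj (hC1 : Goal_C1) (M : MF n) (hM : ∀ i j, Sm (fun x => M x i j))
    (i j : Fin (n + 1)) : Sm (fun x => (M x).adjugate i j) := by
  have e : (fun x => (M x).adjugate i j)
      = fun x => ((M x).updateRow j (Pi.single i 1)).det := by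
    funext x
    rw [Matrix.adjugate_apply]
  rw [e]
  apply sm_det hC1 (fun x => (M x).updateRow j (Pi.single i 1))
  intro p q
  by_cases hp : p = j
  · subst hp
    have e2 : (fun x => (M x).updateRow p (Pi.single i 1) p q)
        = fun _ => (Pi.single i (1 : ℝ) : Fin (n + 1) → ℝ) q := by
      funext x
      rw [Matrix.updateRow_self]
    rw [e2]
    exact (hC1 n).1 _
  · have e2 : (fun x => (M x).updateRow j (Pi.single i 1) p q) = fun x => M x p q := by
      funext x
      rw [Matrix.updateRow_ne hp]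
    rw [e2]
    exact hM p q

theorem sm_inv (hC1 : Goal_C1) (f : EE n → ℝ) (hf : Sm f) (hpos : ∀ x, 0 < f x) :
    Sm (fun x => (f x)⁻¹) := by
  obtain ⟨-, -, -, -, -, -, hcomp, -⟩ := hC1 n
  refine hcomp f (fun y => y⁻¹) (Set.Ioi 0) isOpen_Ioi ?_ hf (fun x => hpos x)
  intro y hy
  exact (contDiffAt_inv ℝ (ne_of_gt hy)).contDiffWithinAt

theorem sm_sqrt (hC1 : Goal_C1) (f : EE n → ℝ) (hf : Sm f) (hpos : ∀ x, 0 < f x) :
    Sm (fun x => Real.sqrt (f x)) := by
  obtain ⟨-, -, -, -, -, -, hcomp, -⟩ := hC1 n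
  refine hcomp f Real.sqrt (Set.Ioi 0) isOpen_Ioi ?_ hf (fun x => hpos x)
  intro y hy
  exact (Real.contDiffAt_sqrt (ne_of_gt hy)).contDiffWithinAt

/-- the entries of the inverse of a smooth field of matrices with positive determinant are smooth -/
theorem sm_matInv (hC1 : Goal_C1) (M : MF n) (hM : ∀ i j, Sm (fun x => M x i j))
    (hpos : ∀ x, 0 < (M x).det) (i j : Fin (n + 1)) : Sm (fun x => (M x)⁻¹ i j) := by
  have e : (fun x => (M x)⁻¹ i j) = fun x => ((M x).det)⁻¹ * (M x).adjugate i j := by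
    funext x
    rw [Matrix.inv_def, Matrix.smul_apply, Ring.inverse_eq_inv', smul_eq_mul]
  rw [e]
  obtain ⟨_, _, _, hmul, -⟩ := hC1 n
  exact hmul _ _ (sm_inv hC1 _ (sm_det hC1 M hM) hpos) (sm_adj hC1 M hM i j)

end C6aux

open C6aux in
theorem goal_C6 (hC1 : Goal_C1) : Goal_C6 := by
  intro n G hG
  have hdet : ∀ x, 0 < (G x).det := fun x => (hG.pos x).det_pos
  refine ⟨hdet, sm_det hC1 G hG.sm, sm_sqrt hC1 _ (sm_det hC1 G hG.sm) hdet,
    sm_matInv hC1 G hG.sm hdet, ?_, ?_⟩
  · intro x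
    exact Matrix.mul_nonsing_inv _ (isUnit_iff_ne_zero.mpr (hdet x).ne')
  · intro x i j
    have h := (hG.pos x).isHermitian.inv
    have h2 := congrFun (congrFun h j) i
    rw [Matrix.conjTranspose_apply] at h2
    exact h2

end Pool.Agent.Helper47.RFn
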