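import Pool.Agent.Helper64.RFn.GoalsV

/-! MP_c98eff_gt, project RFn, last stage, packet DETn2: evolution of the volume density. -/

open MeasureTheory Set Matrix

namespace Pool.Agent.Helper56.RFn.DETn2

open Pool.Agent.Helper47.RFn Pool.Agent.Helper73.RFn Pool.Agent.Helper64.RFn

/-- **Jacobi's formula** for the derivative of a determinant. -/
theorem hasDerivWithinAt_det {κ : Type*} [Fintype κ] [DecidableEq κ] {I : Set ℝ} {t : ℝ}
    (M : ℝ → Matrix κ κ ℝ) (M' : Matrix κ κ ℝ)
    (h : ∀ i j, HasDerivWithinAt (fun r => M r i j) (M' i j) I t) :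
    HasDerivWithinAt (fun r => (M r).det) (∑ b, ∑ a, (M t).adjugate b a * M' a b) I t := by
  have h1 : HasDerivWithinAt (fun r => (M r).det)
      (∑ i, ((M t).updateCol i fun a => M' a i).det) I t := by
    have h2 : HasDerivWithinAt (fun r => ∑ σ : Equiv.Perm κ, (((Equiv.Perm.sign σ : ℤ) : ℝ)) *
        ∏ i, M r (σ i) i) (∑ σ : Equiv.Perm κ, (((Equiv.Perm.sign σ : ℤ) : ℝ)) *
          ∑ i, (∏ j ∈ Finset.univ.erase i, M t (σ j) j) • M' (σ i) i) I t := by
      refine HasDerivWithinAt.fun_sum fun σ _ => ?_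
      refine HasDerivWithinAt.const_mul _ ?_
      exact HasDerivWithinAt.fun_finsetProd fun i _ => h (σ i) i
    have h3 : (fun r => (M r).det) = (fun r => ∑ σ : Equiv.Perm κ,
        (((Equiv.Perm.sign σ : ℤ) : ℝ)) * ∏ i, M r (σ i) i) := by
      funext r
      rw [Matrix.det_apply']
    rw [h3]
    convert h2 using 1
    simp_rw [Matrix.det_apply', Finset.mul_sum]
    rw [Finset.sum_comm]
    refine Finset.sum_congr rfl fun σ _ => Finset.sum_congr rfl fun i _ => ?_
    congr 1
    rw [← Finset.mul_prod_erase Finset.univ _ (Finset.mem_univ i), Matrix.updateCol_self,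
      smul_eq_mul, mul_comm]
    congr 1
    refine Finset.prod_congr rfl fun j hj => ?_
    rw [Matrix.updateCol_ne (Finset.ne_of_mem_erase hj)]
  have h4 : ∀ i, ((M t).updateCol i fun a => M' a i).det = ∑ a, (M t).adjugate i a * M' a i := by
    intro i
    have h5 := congrFun (Matrix.cramer_eq_adjugate_mulVec (M t) (fun a => M' a i)) i
    rw [Matrix.cramer_apply] at h5
    rw [h5]
    rfl
  simp_rw [h4] at h1
  exact h1

theorem detn2 : DETn2 := by
  intro n I A θ hn hF t ht x hx
  set d : ℝ → ℝ := fun r => (θ r x).det with hd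
  have hdet : ∀ r, (gOf (θ r) x).det = d r ^ 2 := by
    intro r
    unfold gOf
    rw [Matrix.det_mul, Matrix.det_transpose, sq]
  have hne : d t ≠ 0 := by
    intro h0
    have h1 := congrArg Matrix.det (hF.inv t ht x)
    rw [Matrix.det_mul, Matrix.det_one] at h1
    have h2 : (θ t x).det = 0 := h0
    rw [h2, mul_zero] at h1
    exact zero_ne_one h1
  have hpos : 0 < d t ^ 2 := by positivity
  have hder : HasDerivWithinAt d (-(n : ℝ) * lamf (A t) (θ t) x * d t) I t := by
    have h1 := hasDerivWithinAt_det (I := I) (t := t) (fun r => θ r x)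
      (fun i a => -∑ b, θ t x i b * Rcf (A t) (θ t) b a x)
      (fun i a => by simpa [Ew] using (hF.flt i a).der [] x hx t ht)
    convert h1 using 1
    have h2 : ∀ b, ∑ a, (θ t x).adjugate b a * (-∑ c, θ t x a c * Rcf (A t) (θ t) c b x) =
        -(d t * Rcf (A t) (θ t) b b x) := by
      intro b
      have h3 : ∑ a, (θ t x).adjugate b a * (-∑ c, θ t x a c * Rcf (A t) (θ t) c b x) =
          -∑ c, ((θ t x).adjugate * θ t x) b c * Rcf (A t) (θ t) c b x := by
        simp_rw [Matrix.mul_apply, Finset.sum_mul, mul_neg, Finset.mul_sum]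
        rw [Finset.sum_neg_distrib, Finset.sum_comm]
        congr 1
        refine Finset.sum_congr rfl fun c _ => Finset.sum_congr rfl fun a _ => ?_
        ring
      rw [h3, Matrix.adjugate_mul]
      simp [Matrix.smul_apply, Matrix.one_apply, hd]
    rw [Finset.sum_congr rfl (fun b _ => h2 b), Finset.sum_neg_distrib, ← Finset.mul_sum]
    have hn0 : (n : ℝ) ≠ 0 := by
      have : (1 : ℝ) ≤ n := by exact_mod_cast hn
      linarith
    unfold lamf
    field_simp
  refine ⟨by rw [hdet]; positivity, ?_⟩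
  have h5 : HasDerivWithinAt (fun r => d r ^ 2)
      (2 * d t * (-(n : ℝ) * lamf (A t) (θ t) x * d t)) I t := by
    simpa using hder.fun_pow 2
  have h6 := h5.sqrt hpos.ne'
  have hfun : (fun r => Real.sqrt (gOf (θ r) x).det) = fun r => Real.sqrt (d r ^ 2) := by
    funext r
    rw [hdet]
  rw [hfun, hdet]
  convert h6 using 1
  have h7 : Real.sqrt (d t ^ 2) ≠ 0 := (Real.sqrt_pos.2 hpos).ne'
  have h8 : Real.sqrt (d t ^ 2) * Real.sqrt (d t ^ 2) = d t ^ 2 := Real.mul_self_sqrt hpos.le
  rw [eq_div_iff (by positivity)]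
  linear_combination (-(n : ℝ) * lamf (A t) (θ t) x * 2) * h8

end Pool.Agent.Helper56.RFn.DETn2
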