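import Pool.Agent.Helper64.RFn.GoalsF

/-!
# Project RFn part F (`MP_c98eff_gt`), packet DIVn (helper64): divergence theorem for compactly
supported fields
-/

set_option autoImplicit false

open MeasureTheory Set

open scoped RealInnerProductSpace

namespace Pool.Agent.Helper64.RFn

theorem divn : DIVn := by
  intro m W hW hc
  set b := EuclideanSpace.basisFun (Fin m) ℝ
  have hd : Differentiable ℝ W := hW.differentiable (by norm_num)
  have hfd : Continuous (fderiv ℝ W) := hW.continuous_fderiv (by norm_num)
  have key : ∀ i, ∫ x, ⟪b i, fderiv ℝ W x (b i)⟫ = 0 ∧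
      Integrable (fun x => ⟪b i, fderiv ℝ W x (b i)⟫) := by
    intro i
    have hg : ∀ x, HasFDerivAt (fun x => ⟪b i, W x⟫)
        ((innerSL ℝ (b i)).comp (fderiv ℝ W x)) x := fun x =>
      (innerSL ℝ (b i)).hasFDerivAt.comp x (hd x).hasFDerivAt
    have hg' : ∀ x, fderiv ℝ (fun x => ⟪b i, W x⟫) x (b i) = ⟪b i, fderiv ℝ W x (b i)⟫ := by
      intro x
      rw [(hg x).fderiv]
      rfl
    have c1 : Continuous (fun x => ⟪b i, fderiv ℝ W x (b i)⟫) :=
      continuous_const.inner (hfd.clm_apply continuous_const)
    have c2 : Continuous (fun x => ⟪b i, W x⟫) := continuous_const.inner hW.continuous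
    have s1 : HasCompactSupport (fun x => ⟪b i, fderiv ℝ W x (b i)⟫) := by
      refine (hc.fderiv_apply ℝ (b i)).mono ?_
      intro x hx hx0
      apply hx
      have hx1 : fderiv ℝ W x (b i) = 0 := hx0
      simp only
      rw [hx1, inner_zero_right]
    have s2 : HasCompactSupport (fun x => ⟪b i, W x⟫) := by
      refine hc.mono ?_
      intro x hx hx0
      apply hx
      simp only
      rw [hx0, inner_zero_right]
    have i1 := c1.integrable_of_hasCompactSupport (μ := volume) s1
    have i2 := c2.integrable_of_hasCompactSupport (μ := volume) s2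
    refine ⟨?_, i1⟩
    have h := integral_mul_fderiv_eq_neg_fderiv_mul_of_integrable (μ := (volume : Measure (V m)))
      (f := fun _ => (1 : ℝ)) (g := fun x => ⟪b i, W x⟫) (v := b i) (by simp)
      (by simpa only [hg', one_mul] using i1) (by simpa only [one_mul] using i2)
      (fun x _ => differentiableAt_const _) (fun x _ => (hg x).differentiableAt)
    simpa only [hg', one_mul, fderiv_fun_const, Pi.zero_apply, ContinuousLinearMap.zero_apply,
      zero_mul, integral_zero, neg_zero] using h
  have ht : ∀ x, LinearMap.trace ℝ (V m) (fderiv ℝ W x : V m →ₗ[ℝ] V m) =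
      ∑ i, ⟪b i, fderiv ℝ W x (b i)⟫ := fun x =>
    LinearMap.trace_eq_sum_inner _ b
  simp only [ht]
  rw [integral_finsetSum _ fun i _ => (key i).2]
  exact Finset.sum_eq_zero fun i _ => (key i).1

end Pool.Agent.Helper64.RFn
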