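import Pool.Agent.Helper47.RFn.CoreN

/-!
# Project RFn (`MP_c98eff_gt`), packet RFn-C7 (helper47): derivative along a curve in the sphere
-/

set_option autoImplicit false

namespace Pool.Agent.Helper47.RFn

open Finset

namespace C7aux

variable {n : ℕ}

theorem sm_hasF (f : EE n → ℝ) (x : EE n) (hf : Sm f) (hx : x ≠ 0) :
    HasFDerivAt f (fderiv ℝ f x) x := by
  have h1 : ContDiffAt ℝ oo f x :=
    (hf.cd x hx).contDiffAt (isOpen_compl_singleton.mem_nhds hx)
  exact (h1.differentiableAt (by simp)).hasFDerivAt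

theorem fderiv_sum (f : EE n → ℝ) (x v : EE n) :
    fderiv ℝ f x v = ∑ i, v i * pd i f x := by
  have hv : v = ∑ i, v i • (EuclideanSpace.single i (1 : ℝ) : EE n) := by
    have h := (EuclideanSpace.basisFun (Fin (n + 1)) ℝ).sum_repr v
    simpa using h.symm
  conv_lhs => rw [hv]
  rw [map_sum]
  refine Finset.sum_congr rfl fun i _ => ?_
  rw [map_smul, smul_eq_mul]
  rfl

end C7aux

open C7aux in
theorem goal_C7 (_hC1 : Goal_C1) : Goal_C7 := by
  intro n
  refine ⟨fun f c w t hf hc hd => ?_, fun f x hf hx => ⟨sm_hasF f x hf hx, fderiv_sum f x⟩⟩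
  have hx : c t ≠ 0 := by
    intro h
    rw [h, norm_zero] at hc
    exact zero_ne_one hc
  have h := (sm_hasF f (c t) hf hx).comp_hasDerivAt t hd
  have e : fderiv ℝ f (c t) w = ∑ i, w i * ed i f (c t) := by
    rw [fderiv_sum]
    refine Finset.sum_congr rfl fun i _ => ?_
    unfold ed
    rw [hc, one_mul]
  rw [← e]
  exact h

end Pool.Agent.Helper47.RFn
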