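import Pool.Agent.Helper47.RFn.GoalsA

/-!
# Project RFn (`MP_c98eff_gt`), packet RFn-PRD (helper47): product rule of the heat operator
-/

set_option autoImplicit false

namespace Pool.Agent.Helper47.RFn

open Finset

namespace PRD56

variable {n : ℕ} {T : ℝ} (F : FB n T)

lemma lap_mul (f g : F.B) :
    F.Lap (f * g) = f * F.Lap g + g * F.Lap f + (2 : ℝ) • F.gg f g := by
  unfold FB.Lap FB.gg
  rw [Finset.mul_sum, Finset.mul_sum, Finset.smul_sum, ← Finset.sum_add_distrib,
    ← Finset.sum_add_distrib]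
  refine Finset.sum_congr rfl fun a _ => ?_
  rw [Derivation.leibniz, map_add]
  simp only [smul_eq_mul, Derivation.leibniz, two_smul]
  ring

lemma lap_add (f g : F.B) : F.Lap (f + g) = F.Lap f + F.Lap g := by
  unfold FB.Lap
  simp only [map_add, Finset.sum_add_distrib]

lemma lap_sub (f g : F.B) : F.Lap (f - g) = F.Lap f - F.Lap g := by
  unfold FB.Lap
  simp only [map_sub, Finset.sum_sub_distrib]

lemma lap_smul (c : ℝ) (f : F.B) : F.Lap (c • f) = c • F.Lap f := by
  unfold FB.Lap
  simp only [Derivation.map_smul, Finset.smul_sum]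

lemma lap_alg (c : ℝ) : F.Lap (algebraMap ℝ F.B c) = 0 := by
  unfold FB.Lap
  simp

lemma hop_mul (f g : F.B) :
    F.Hop (f * g) = f * F.Hop g + g * F.Hop f - (2 : ℝ) • F.gg f g := by
  unfold FB.Hop
  rw [lap_mul, Derivation.leibniz]
  simp only [smul_eq_mul]
  ring

lemma lap_const (f p : F.B) (hp : ∀ a, F.H a p = 0) : F.Lap (f * p) = F.Lap f * p := by
  unfold FB.Lap
  rw [Finset.sum_mul]
  refine Finset.sum_congr rfl fun a _ => ?_
  rw [Derivation.leibniz, hp, smul_zero, zero_add, smul_eq_mul, Derivation.leibniz, hp, smul_zero,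
    add_zero, smul_eq_mul, mul_comm]

lemma hop_const (f p : F.B) (hp : ∀ a, F.H a p = 0) (hD : F.D p = 0) :
    F.Hop (f * p) = F.Hop f * p := by
  unfold FB.Hop
  rw [lap_const F f p hp, Derivation.leibniz, hD]
  simp only [smul_eq_mul]
  ring

lemma dl_der (d : Derivation ℝ F.B F.B) (a b : Ix n) : d (F.dl a b) = 0 := by
  unfold FB.dl
  split_ifs <;> simp

end PRD56

open PRD56 in
theorem goal_PRD : Goal_PRD := by
  intro n T F
  refine ⟨fun f g => ⟨hop_mul F f g, ?_, ?_, fun c => ⟨?_, ?_⟩, ?_⟩, fun hF => ?_⟩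
  · unfold FB.Hop; rw [lap_add, map_add]; ring
  · unfold FB.Hop; rw [lap_sub, map_sub]; ring
  · unfold FB.Hop; rw [lap_smul, Derivation.map_smul, smul_sub]
  · unfold FB.Hop; rw [lap_alg]; simp
  · rw [pow_two, hop_mul, two_smul, two_smul]
  · have hPH : ∀ a b c, F.H c (F.P a b) = 0 := by
      intro a b c
      unfold FB.P
      rw [map_sub, dl_der, Derivation.leibniz, hF.Hnu, hF.Hnu]
      simp
    have hPD : ∀ a b, F.D (F.P a b) = 0 := by
      intro a b
      unfold FB.P
      rw [map_sub, dl_der, Derivation.leibniz, hF.Dnu, hF.Dnu]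
      simp
    have hIH : ∀ a b c d e, F.H e (F.I a b c d) = 0 := by
      intro a b c d e
      unfold FB.I
      rw [map_sub, Derivation.leibniz, Derivation.leibniz, hPH, hPH, hPH, hPH]
      simp
    have hID : ∀ a b c d, F.D (F.I a b c d) = 0 := by
      intro a b c d
      unfold FB.I
      rw [map_sub, Derivation.leibniz, Derivation.leibniz, hPD, hPD, hPD, hPD]
      simp
    have hPs : ∀ a b, F.P a b = F.P b a := by
      intro a b
      unfold FB.P FB.dl
      rw [mul_comm]
      simp only [eq_comm]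
    have hPn : ∀ a, ∑ b, F.P a b * F.nu b = 0 := by
      intro a
      have h1 : ∀ b, F.P a b * F.nu b = F.dl a b * F.nu b - F.nu a * F.nu b ^ 2 := by
        intro b; unfold FB.P; ring
      simp only [h1, Finset.sum_sub_distrib, ← Finset.mul_sum, hF.nunu]
      unfold FB.dl
      simp
    refine ⟨hPH, hPD, hIH, hID, fun f a b => hop_const F f _ (hPH a b) (hPD a b),
      fun f a b c d => hop_const F f _ (hIH a b c d) (hID a b c d), hPs, hPn, ?_, ?_⟩
    · intro a c
      have h1 : ∀ b, F.P a b * F.P b c = F.P a b * F.dl b c - (F.P a b * F.nu b) * F.nu c := by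
        intro b
        have : F.P b c = F.dl b c - F.nu b * F.nu c := rfl
        rw [this]; ring
      simp only [h1, Finset.sum_sub_distrib, ← Finset.sum_mul, hPn]
      unfold FB.dl
      simp
    · have h1 : ∀ a, F.P a a = 1 - F.nu a ^ 2 := by
        intro a; unfold FB.P FB.dl; rw [if_pos rfl]; ring
      simp only [h1, Finset.sum_sub_distrib, hF.nunu]
      simp

end Pool.Agent.Helper47.RFn
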